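import Pool.Agent.BOX.StmtsN

/-!
# Squad BOX (MP_be01ff_an), row FMN: the trilinear convolution of class functions (`N ≥ 3`)
-/

namespace Pool.Agent.BOX.H47

open Set Filter Topology MeasureTheory Pool.Agent.BOX

noncomputable section

/-- The regrouping of the indices. -/
def rgp (N : ℕ) : (ℤ × ℤ) × (Fin N → ℤ × ℤ) ≃ G3 N × G3 N where
  toFun x := ((x.1.1, fun i => (x.2 i).1), (x.1.2, fun i => (x.2 i).2))
  invFun y := ((y.1.1, y.2.1), fun i => (y.1.2 i, y.2.2 i))
  left_inv _ := rfl
  right_inv _ := rfl

/-- The allowed pairs of one coordinate. -/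
def Sfn (n p q : ℤ) : Finset (ℤ × ℤ) :=
  (({p, -p} : Finset ℤ) ×ˢ ({q, -q} : Finset ℤ)).filter
    (fun ab => |n - ab.1 - ab.2| = |n - p - q|)

theorem mem_Sfn (n p q : ℤ) (a b : ℤ) :
    (a, b) ∈ Sfn n p q ↔ |a| = |p| ∧ |b| = |q| ∧ |n - a - b| = |n - p - q| := by
  unfold Sfn
  rw [Finset.mem_filter, Finset.mem_product]
  simp only [Finset.mem_insert, Finset.mem_singleton, abs_eq_abs]
  tauto

/-- The number of relations. -/
def npr (n p q : ℤ) : ℕ :=
  (if p + q = 0 then 1 else 0) + (if q = n then 1 else 0) + (if p = n then 1 else 0)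

theorem card_Sfn (n p q : ℤ) (hn : n ≠ 0) (hp : p ≠ 0) (hq : q ≠ 0) :
    (Sfn n p q).card = 1 + npr n p q := by
  have h1 : p ≠ -p := fun h => hp (by omega)
  have h2 : q ≠ -q := fun h => hq (by omega)
  have e0 : (({p, -p} : Finset ℤ) ×ˢ ({q, -q} : Finset ℤ)) =
      ({(p, q), (-p, q), (p, -q), (-p, -q)} : Finset (ℤ × ℤ)) := by
    ext ⟨a, b⟩
    simp only [Finset.mem_product, Finset.mem_insert, Finset.mem_singleton, Prod.mk.injEq]
    tauto
  unfold Sfn
  rw [e0]
  have c2 : |n - -p - q| = |n - p - q| ↔ q = n := by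
    rw [abs_eq_abs]
    constructor
    · rintro (h | h) <;> omega
    · intro h
      right
      omega
  have c3 : |n - p - -q| = |n - p - q| ↔ p = n := by
    rw [abs_eq_abs]
    constructor
    · rintro (h | h) <;> omega
    · intro h
      right
      omega
  have c4 : |n - -p - -q| = |n - p - q| ↔ p + q = 0 := by
    rw [abs_eq_abs]
    constructor
    · rintro (h | h) <;> omega
    · intro h
      left
      omega
  rw [Finset.filter_insert, Finset.filter_insert, Finset.filter_insert, Finset.filter_singleton]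
  simp only [c2, c3, c4, if_true]
  unfold npr
  have n1 : (p, q) ≠ (-p, q) := fun h => h1 (congrArg Prod.fst h)
  have n2 : (p, q) ≠ (p, -q) := fun h => h2 (congrArg Prod.snd h)
  have n3 : (p, q) ≠ (-p, -q) := fun h => h1 (congrArg Prod.fst h)
  have n4 : (-p, q) ≠ (p, -q) := fun h => h2 (congrArg Prod.snd h)
  have n5 : (-p, q) ≠ (-p, -q) := fun h => h2 (congrArg Prod.snd h)
  have n6 : (p, -q) ≠ (-p, -q) := fun h => h1 (congrArg Prod.fst h)
  split_ifs <;> simp [n1, n2, n3, n4, n5, n6]

theorem pow_card (n p q : ℤ) (hn : n ≠ 0) (hp : p ≠ 0) (hq : q ≠ 0) (N : ℕ) :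
    (((Sfn n p q).card ^ N : ℕ) : ℂ) = 1 + (2 ^ N - 1) * ((if p + q = 0 then 1 else 0) +
      (if q = n then 1 else 0) + (if p = n then 1 else 0)) +
      (3 ^ N - 2 ^ (N + 1) + 1) * ((if p = n ∧ q = -n then 1 else 0) +
        (if p = n ∧ q = n then 1 else 0) + (if p = -n ∧ q = n then 1 else 0)) := by
  rw [card_Sfn n p q hn hp hq]
  unfold npr
  push_cast
  by_cases a1 : p + q = 0
  · by_cases a2 : q = n
    · have b1 : p ≠ n := by omega
      have b2 : p = -n := by omega
      have b3 : q ≠ -n := by omega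
      rw [if_pos a1, if_pos a2, if_neg b1, if_neg (fun h => b1 h.1), if_neg (fun h => b1 h.1),
        if_pos ⟨b2, a2⟩]
      norm_num
      ring
    · by_cases a3 : p = n
      · have b1 : q = -n := by omega
        rw [if_pos a1, if_neg a2, if_pos a3, if_pos ⟨a3, b1⟩, if_neg (fun h => a2 h.2),
          if_neg (fun h => a2 h.2)]
        norm_num
        ring
      · rw [if_pos a1, if_neg a2, if_neg a3, if_neg (fun h => a3 h.1), if_neg (fun h => a2 h.2),
          if_neg (fun h => a2 h.2)]
        norm_num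
  · by_cases a2 : q = n
    · by_cases a3 : p = n
      · have b3 : q ≠ -n := by omega
        have b4 : p ≠ -n := by omega
        rw [if_neg a1, if_pos a2, if_pos a3, if_neg (fun h => b3 h.2), if_pos ⟨a3, a2⟩,
          if_neg (fun h => b4 h.1)]
        norm_num
        ring
      · have b4 : p ≠ -n := by omega
        rw [if_neg a1, if_pos a2, if_neg a3, if_neg (fun h => a3 h.1), if_neg (fun h => a3 h.1),
          if_neg (fun h => b4 h.1)]
        norm_num
    · by_cases a3 : p = n
      · have b3 : q ≠ -n := by omega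
        rw [if_neg a1, if_neg a2, if_pos a3, if_neg (fun h => b3 h.2), if_neg (fun h => a2 h.2),
          if_neg (fun h => a2 h.2)]
        norm_num
      · rw [if_neg a1, if_neg a2, if_neg a3, if_neg (fun h => a3 h.1), if_neg (fun h => a3 h.1),
          if_neg (fun h => a2 h.2)]
        norm_num

/-- The sum over the space indices. -/
theorem inner_sum (N : ℕ) (f g h : ℤ → ℂ) (hf : Oddf f) (hg : Oddf g) (n p q : ℤ) (hn : Odd n) :
    ∑' u : Fin N → ℤ × ℤ, cl3 f (p, fun i => (u i).1) * cl3 g (q, fun i => (u i).2) *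
      cl3 h (((n, fun _ => n) : G3 N) - (p, fun i => (u i).1) - (q, fun i => (u i).2)) =
    (((Sfn n p q).card ^ N : ℕ) : ℂ) * (f p * g q * h (n - p - q)) := by
  by_cases hp : Odd p
  · by_cases hq : Odd q
    · have hr : Odd (n - p - q) := by
        rcases hn with ⟨a, ha⟩
        rcases hp with ⟨b, hb⟩
        rcases hq with ⟨c, hc⟩
        exact ⟨a - b - c - 1, by omega⟩
      have ht : ∀ u : Fin N → ℤ × ℤ,
          cl3 f (p, fun i => (u i).1) * cl3 g (q, fun i => (u i).2) *
          cl3 h (((n, fun _ => n) : G3 N) - (p, fun i => (u i).1) - (q, fun i => (u i).2)) =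
          if u ∈ Fintype.piFinset (fun _ : Fin N => Sfn n p q) then
            f p * g q * h (n - p - q) else 0 := by
        intro u
        unfold cl3
        simp only [Prod.mk_sub_mk, Pi.sub_apply, hp, hq, hr, true_and]
        by_cases hu : u ∈ Fintype.piFinset (fun _ : Fin N => Sfn n p q)
        · rw [if_pos hu]
          rw [Fintype.mem_piFinset] at hu
          have h3 : ∀ i, |(u i).1| = |p| ∧ |(u i).2| = |q| ∧
              |n - (u i).1 - (u i).2| = |n - p - q| := fun i =>
            (mem_Sfn n p q (u i).1 (u i).2).mp (hu i)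
          rw [if_pos (fun i => (h3 i).1), if_pos (fun i => (h3 i).2.1),
            if_pos (fun i => (h3 i).2.2)]
        · rw [if_neg hu]
          by_cases k1 : ∀ i, |(u i).1| = |p|
          · by_cases k2 : ∀ i, |(u i).2| = |q|
            · by_cases k3 : ∀ i, |n - (u i).1 - (u i).2| = |n - p - q|
              · exact absurd (Fintype.mem_piFinset.mpr fun i =>
                  (mem_Sfn n p q (u i).1 (u i).2).mpr ⟨k1 i, k2 i, k3 i⟩) hu
              · rw [if_neg k3, mul_zero]
            · rw [if_neg k2, mul_zero, zero_mul]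
          · rw [if_neg k1, zero_mul, zero_mul]
      rw [tsum_congr ht, tsum_eq_sum (s := Fintype.piFinset (fun _ : Fin N => Sfn n p q))
        (fun u hu => if_neg hu), Finset.sum_congr rfl (fun u hu => if_pos hu), Finset.sum_const,
        Fintype.card_piFinset_const, nsmul_eq_mul]
    · have e1 : g q = 0 := hg q hq
      rw [e1, mul_zero, zero_mul, mul_zero]
      rw [← tsum_zero (α := ℂ) (β := Fin N → ℤ × ℤ)]
      refine tsum_congr fun u => ?_
      have e2 : cl3 g (q, fun i => (u i).2) = 0 := if_neg (fun h => hq h.1)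
      rw [e2, mul_zero, zero_mul]
  · have e1 : f p = 0 := hf p hp
    rw [e1, zero_mul, zero_mul, mul_zero]
    rw [← tsum_zero (α := ℂ) (β := Fin N → ℤ × ℤ)]
    refine tsum_congr fun u => ?_
    have e2 : cl3 f (p, fun i => (u i).1) = 0 := if_neg (fun h => hp h.1)
    rw [e2, zero_mul, zero_mul]

/-- The class functions are summable. -/
theorem sum_cl3 (N : ℕ) (f : ℤ → ℂ) (hf : Summable fun n => ‖f n‖) :
    Summable fun g : G3 N => ‖(cl3 f g : ℂ)‖ := by
  have hz : ∀ (p : ℤ) (k : Fin N → ℤ),
      k ∉ Fintype.piFinset (fun _ : Fin N => ({p, -p} : Finset ℤ)) → cl3 f (p, k) = 0 := by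
    intro p k hk
    refine if_neg fun h => hk ?_
    rw [Fintype.mem_piFinset]
    intro i
    have := h.2 i
    rw [abs_eq_abs] at this
    simpa using this
  rw [summable_prod_of_nonneg (fun _ => norm_nonneg _)]
  refine ⟨fun p => summable_of_ne_finset_zero
    (s := Fintype.piFinset (fun _ : Fin N => ({p, -p} : Finset ℤ))) fun k hk => ?_, ?_⟩
  · rw [hz p k hk, norm_zero]
  · refine Summable.of_nonneg_of_le (fun p => tsum_nonneg fun _ => norm_nonneg _) (fun p => ?_)
      (hf.mul_left ((2 : ℝ) ^ N))
    rw [tsum_eq_sum (s := Fintype.piFinset (fun _ : Fin N => ({p, -p} : Finset ℤ)))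
      (fun k hk => by rw [hz p k hk, norm_zero])]
    have h1 : ∀ k ∈ Fintype.piFinset (fun _ : Fin N => ({p, -p} : Finset ℤ)),
        ‖(cl3 f (p, k) : ℂ)‖ ≤ ‖f p‖ := by
      intro k _
      unfold cl3
      split_ifs
      · exact le_rfl
      · rw [norm_zero]
        exact norm_nonneg _
    refine (Finset.sum_le_card_nsmul _ _ _ h1).trans ?_
    rw [Fintype.card_piFinset_const, nsmul_eq_mul]
    refine mul_le_mul_of_nonneg_right ?_ (norm_nonneg _)
    have h2 : ({p, -p} : Finset ℤ).card ≤ 2 := Finset.card_le_two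
    push_cast
    exact pow_le_pow_left₀ (by positivity) (by exact_mod_cast h2) N

/-- T3A in the form that is needed. -/
theorem t3a_one (T3A : T3aStmt) {Γ : Type} [AddCommGroup Γ] (F G H : Γ → ℂ)
    (hF : Summable fun g => ‖F g‖) (hG : Summable fun g => ‖G g‖)
    (hH : Summable fun g => ‖H g‖) (g : Γ) :
    Summable fun h : Γ × Γ => ‖F h.1 * G h.2 * H (g - h.1 - h.2)‖ := by
  have h := (T3A Γ ℂ (fun _ => 1) F G H ⟨fun _ => le_rfl, fun _ _ => by norm_num⟩
    (by unfold Sm; simpa using hF) (by unfold Sm; simpa using hG)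
    (by unfold Sm; simpa using hH)).1 g
  simpa only [norm_mul] using h

/-- Sum over a line. -/
theorem tsum_line (F : ℤ × ℤ → ℂ) (j : ℤ → ℤ × ℤ) (hj : Function.Injective j)
    (P : ℤ × ℤ → Prop) [DecidablePred P] (hP : ∀ x, P x ↔ x ∈ Set.range j) :
    ∑' x, (if P x then F x else 0) = ∑' m, F (j m) := by
  rw [← hj.tsum_eq]
  · refine tsum_congr fun m => ?_
    rw [if_pos ((hP _).mpr ⟨m, rfl⟩)]
  · intro x hx
    rw [Function.mem_support] at hx
    by_contra hc
    exact hx (if_neg fun h => hc ((hP x).mp h))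

theorem summable_if {α : Type} (F : α → ℂ) (hF : Summable fun x => ‖F x‖) (P : α → Prop)
    [DecidablePred P] : Summable fun x => if P x then F x else 0 := by
  refine Summable.of_norm_bounded hF fun x => ?_
  split_ifs
  · exact le_rfl
  · rw [norm_zero]
    exact norm_nonneg _

theorem fmn (T3A : T3aStmt) : FmnStmt := by
  intro N f g h _ of og oh hf hg hh n hn
  have hn0 : n ≠ 0 := by
    rcases hn with ⟨a, ha⟩
    omega
  set F : ℤ × ℤ → ℂ := fun x => f x.1 * g x.2 * h (n - x.1 - x.2) with hFdef
  have hFs : Summable fun x => ‖F x‖ := t3a_one T3A f g h hf hg hh n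
  have hFs' : Summable F := hFs.of_norm
  -- the sum over the space indices
  have s1 : T3 (cl3 f : G3 N → ℂ) (cl3 g) (cl3 h) (n, fun _ => n) =
      ∑' x : ℤ × ℤ, (((Sfn n x.1 x.2).card ^ N : ℕ) : ℂ) * F x := by
    have hs := (t3a_one T3A (cl3 f : G3 N → ℂ) (cl3 g) (cl3 h) (sum_cl3 N f hf)
      (sum_cl3 N g hg) (sum_cl3 N h hh) (n, fun _ => n)).of_norm
    unfold T3
    rw [← (rgp N).tsum_eq]
    have hs2 := (rgp N).summable_iff.mpr hs
    have h3 := Summable.tsum_prod hs2
    simp only [Function.comp_def] at h3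
    rw [h3]
    refine tsum_congr fun x => ?_
    exact inner_sum N f g h of og n x.1 x.2 hn
  rw [s1]
  -- the expansion
  have s2 : ∀ x : ℤ × ℤ, (((Sfn n x.1 x.2).card ^ N : ℕ) : ℂ) * F x =
      F x + (2 ^ N - 1) * ((if x.1 + x.2 = 0 then F x else 0) + (if x.2 = n then F x else 0) +
        (if x.1 = n then F x else 0)) +
      (3 ^ N - 2 ^ (N + 1) + 1) * ((if x.1 = n ∧ x.2 = -n then F x else 0) +
        (if x.1 = n ∧ x.2 = n then F x else 0) + (if x.1 = -n ∧ x.2 = n then F x else 0)) := by
    intro x
    by_cases hp : x.1 = 0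
    · have e1 : f x.1 = 0 := of _ (by rw [hp]; decide)
      have e2 : F x = 0 := by
        simp only [hFdef]
        rw [e1, zero_mul, zero_mul]
      rw [e2]
      simp
    · by_cases hq : x.2 = 0
      · have e1 : g x.2 = 0 := og _ (by rw [hq]; decide)
        have e2 : F x = 0 := by
          simp only [hFdef]
          rw [e1, mul_zero, zero_mul]
        rw [e2]
        simp
      · rw [pow_card n x.1 x.2 hn0 hp hq N]
        have hite : ∀ (P : Prop) [Decidable P], (if P then F x else 0) =
            (if P then 1 else 0) * F x := by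
          intro P _
          split_ifs <;> simp
        rw [hite (x.1 + x.2 = 0), hite (x.2 = n), hite (x.1 = n), hite (x.1 = n ∧ x.2 = -n),
          hite (x.1 = n ∧ x.2 = n), hite (x.1 = -n ∧ x.2 = n)]
        ring
  rw [tsum_congr s2]
  have z1 : Summable fun x : ℤ × ℤ => if x.1 + x.2 = 0 then F x else 0 := summable_if F hFs _
  have z2 : Summable fun x : ℤ × ℤ => if x.2 = n then F x else 0 := summable_if F hFs _
  have z3 : Summable fun x : ℤ × ℤ => if x.1 = n then F x else 0 := summable_if F hFs _
  have z4 : Summable fun x : ℤ × ℤ => if x.1 = n ∧ x.2 = -n then F x else 0 :=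
    summable_if F hFs _
  have z5 : Summable fun x : ℤ × ℤ => if x.1 = n ∧ x.2 = n then F x else 0 := summable_if F hFs _
  have z6 : Summable fun x : ℤ × ℤ => if x.1 = -n ∧ x.2 = n then F x else 0 :=
    summable_if F hFs _
  rw [Summable.tsum_add (hFs'.add (((z1.add z2).add z3).mul_left _))
    (((z4.add z5).add z6).mul_left _), Summable.tsum_add hFs' (((z1.add z2).add z3).mul_left _),
    tsum_mul_left, tsum_mul_left, Summable.tsum_add (z1.add z2) z3, Summable.tsum_add z1 z2,
    Summable.tsum_add (z4.add z5) z6, Summable.tsum_add z4 z5]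
  have v1 : ∑' x : ℤ × ℤ, (if x.1 + x.2 = 0 then F x else 0) = h n * pr f g := by
    rw [tsum_line F (fun m => (m, -m)) (fun a b hab => congrArg Prod.fst hab)
      (fun x => x.1 + x.2 = 0)]
    · unfold pr
      rw [← tsum_mul_left]
      refine tsum_congr fun m => ?_
      simp only [hFdef]
      have : n - m - -m = n := by ring
      rw [this]
      ring
    · intro x
      constructor
      · intro hx
        refine ⟨x.1, ?_⟩
        ext
        · rfl
        · show - x.1 = x.2
          omega
      · rintro ⟨m, rfl⟩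
        show m + -m = 0
        omega
  have v2 : ∑' x : ℤ × ℤ, (if x.2 = n then F x else 0) = g n * pr f h := by
    rw [tsum_line F (fun m => (m, n)) (fun a b hab => congrArg Prod.fst hab)
      (fun x => x.2 = n)]
    · unfold pr
      rw [← tsum_mul_left]
      refine tsum_congr fun m => ?_
      simp only [hFdef]
      have : n - m - n = -m := by ring
      rw [this]
      ring
    · intro x
      constructor
      · intro hx
        refine ⟨x.1, ?_⟩
        ext
        · rfl
        · exact hx.symm
      · rintro ⟨m, rfl⟩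
        rfl
  have v3 : ∑' x : ℤ × ℤ, (if x.1 = n then F x else 0) = f n * pr g h := by
    rw [tsum_line F (fun m => (n, m)) (fun a b hab => congrArg Prod.snd hab)
      (fun x => x.1 = n)]
    · unfold pr
      rw [← tsum_mul_left]
      refine tsum_congr fun m => ?_
      simp only [hFdef]
      have : n - n - m = -m := by ring
      rw [this]
      ring
    · intro x
      constructor
      · intro hx
        refine ⟨x.2, ?_⟩
        ext
        · exact hx.symm
        · rfl
      · rintro ⟨m, rfl⟩
        rfl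
  have pt : ∀ a b : ℤ, ∑' x : ℤ × ℤ, (if x.1 = a ∧ x.2 = b then F x else 0) = F (a, b) := by
    intro a b
    rw [tsum_eq_single (a, b)]
    · rw [if_pos ⟨rfl, rfl⟩]
    · intro x hx
      refine if_neg fun hc => hx ?_
      ext
      · exact hc.1
      · exact hc.2
  rw [v1, v2, v3, pt, pt, pt]
  unfold K1
  have w0 : ∑' x, F x = T3 f g h n := rfl
  have w1 : F (n, -n) = f n * g (-n) * h n := by
    simp only [hFdef]
    rw [show n - n - -n = n by ring]
  have w2 : F (n, n) = f n * g n * h (-n) := by
    simp only [hFdef]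
    rw [show n - n - n = -n by ring]
  have w3 : F (-n, n) = f (-n) * g n * h n := by
    simp only [hFdef]
    rw [show n - -n - n = n by ring]
  rw [w0, w1, w2, w3]
  push_cast
  ring

end

end Pool.Agent.BOX.H47
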